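import Pool.Agent.MP_4f4d9f_gt.Ku.Main

namespace Pool.Agent.MP_4f4d9f_gt.Old.Closed

open Pool.Agent.MP_4f4d9f_gt

/-- Let `M` be a closed aspherical topological `n`-manifold, `n ≥ 3`. Then the `L²`-Betti numbers
of `M` vanish in all degrees `k + 1 ≥ n - 1`. For `n = 4` these are all degrees above the middle
dimension. `X` is the contractible universal cover, `G` the deck group, `E = ℓ²(G)` with basis
`b`, and `ι` the left regular representation. -/
theorem result {n : ℕ} (hn : 3 ≤ n) {M : Type} [TopologicalSpace M] [T2Space M] [CompactSpace M]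
    [ChartedSpace (EuclideanSpace ℝ (Fin n)) M]
    {X : Type} [TopologicalSpace X] [ContractibleSpace X]
    {G : Type} [Group G] [MulAction G X] [ContinuousConstSMul G X]
    {p : X → M} (hp : IsQuotientCoveringMap p G)
    {E : Type} [NormedAddCommGroup E] [InnerProductSpace ℂ E]
    (b : HilbertBasis G ℂ E) (ι : G →* vnAlg b) (hι : ∀ g h, (ι g).1 (b h) = b (g * h))
    (k : ℕ) (hk : n - 1 ≤ k + 1) : bettiSucc b ι X k = 0 :=
  Ku.main hn hp b ι hι (by omega)

end Pool.Agent.MP_4f4d9f_gt.Old.Closed
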