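import Pool.Agent.MP_4f4d9f_gt.Hy.Main

namespace Pool.Agent.MP_4f4d9f_gt.Old.NPC

open Pool.Agent.MP_4f4d9f_gt Pool.Agent.MP_4f4d9f_gt.Hy

/-- Let `M` be a closed aspherical topological `n`-manifold, `n ≥ 4`, whose fundamental group `G`
acts geometrically on a CAT(0) space, on a Gromov hyperbolic space or on a space with a combing.
Then the `L²`-Betti numbers of `M` vanish in all degrees `k + 1 ≥ n - 1`. For `n = 4` these are all
degrees above the middle dimension. `X` is the contractible universal cover, `G` the deck group,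
`E = ℓ²(G)` with basis `b`, and `ι` the left regular representation. -/
theorem result {n : ℕ} (hn : 4 ≤ n) {M : Type} [TopologicalSpace M] [T2Space M] [CompactSpace M]
    [ChartedSpace (EuclideanSpace ℝ (Fin n)) M]
    {X : Type} [TopologicalSpace X] [ContractibleSpace X]
    {G : Type} [Group G] [MulAction G X] [ContinuousConstSMul G X]
    {p : X → M} (hp : IsQuotientCoveringMap p G) (hG : NPC G)
    {E : Type} [NormedAddCommGroup E] [InnerProductSpace ℂ E]
    (b : HilbertBasis G ℂ E) (ι : G →* vnAlg b) (hι : ∀ g h, (ι g).1 (b h) = b (g * h))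
    (k : ℕ) (hk : n - 1 ≤ k + 1) : bettiSucc b ι X k = 0 :=
  main hn hp hG.combable b ι hι (by omega)

end Pool.Agent.MP_4f4d9f_gt.Old.NPC
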