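import Pool.Agent.MP_4f4d9f_gt.Sg.Main

namespace Pool.Agent.MP_4f4d9f_gt.Old.ResLocInd

open Pool.Agent.MP_4f4d9f_gt Pool.Agent.MP_4f4d9f_gt.Sg

/-- The Davis-Okun conjecture for aspherical manifolds whose fundamental group `G` has a
co-amenable subgroup `H` (the action of `G` on `G ⧸ H` satisfies the Følner condition; for example
`H` of finite index) that is a directed union of subgroups `K` which are residually (locally
indicable and amenable) and have a projective resolution that is finitely generated in degree
`k + 1`. `M` is an `n`-manifold (charts in a convex set `C` with nonempty interior: `C = ℝⁿ` or a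
half space), `X` its contractible universal cover, `G` the deck group, `E = ℓ²(G)` with basis `b`,
and `ι` the left regular representation. -/
theorem result {n : ℕ} {C : Set (EuclideanSpace ℝ (Fin n))} (hC : Convex ℝ C)
    (hC' : (interior C).Nonempty)
    {M : Type} [TopologicalSpace M] [T2Space M] [ChartedSpace C M]
    {X : Type} [TopologicalSpace X] [ContractibleSpace X]
    {G : Type} [Group G] [MulAction G X] [ContinuousConstSMul G X]
    {p : X → M} (hp : IsQuotientCoveringMap p G)
    (H : Subgroup G) (hH : Folner G (G ⧸ H)) (k : ℕ)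
    (hK : ∀ T : Finset H, ∃ K : Subgroup H, (∀ t ∈ T, t ∈ K) ∧ ResLIA K ∧ FinRes K (k + 1))
    {E : Type} [NormedAddCommGroup E] [InnerProductSpace ℂ E]
    (b : HilbertBasis G ℂ E) (ι : G →* vnAlg b) (hι : ∀ g h, (ι g).1 (b h) = b (g * h))
    (hk : n < 2 * (k + 1)) : bettiSucc b ι X k = 0 :=
  main_resLIA hC hC' hp H hH k hK b ι hι hk

end Pool.Agent.MP_4f4d9f_gt.Old.ResLocInd
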